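import Pool.Agent.H327.UPW.Shearer

/-!
# An entropy inequality for families of events with pairwise conflicts
-/

set_option autoImplicit false

namespace Pool.Agent.H327.UPW

open Finset

lemma card_supp {A : Type*} [Fintype A] (a0 : A) {n : ℕ} (G : Finset (Fin n)) :
    (Fintype.piFinset fun t : Fin n => if t ∈ G then (univ : Finset A) else {a0}).card =
      Fintype.card A ^ G.card := by
  rw [Fintype.card_piFinset]
  have : ∀ t : Fin n, (if t ∈ G then (univ : Finset A) else {a0}).card =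
      if t ∈ G then Fintype.card A else 1 := fun t => by split_ifs <;> simp
  simp only [this]
  rw [Finset.prod_ite]
  simp

/-- The entropy inequality. -/
theorem entropy_ineq {A : Type*} [Fintype A] [DecidableEq A] (a0 : A) (n g c k : ℕ) (hk : 0 < k)
    (F : Fin g → Finset (Fin n)) (hc : ∀ φ, (F φ).card = c)
    (hcov : ∀ φ, ∀ t ∈ F φ, (univ.filter fun ψ => t ∈ F ψ).card = k + 1)
    (S : Fin g → Finset (Fin n → A)) (hsupp : ∀ φ, ∀ x ∈ S φ, ∀ t, t ∉ F φ → x t = a0)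
    (hdis : ∀ φ ψ, φ ≠ ψ → ∀ x ∈ S φ, ∀ y ∈ S ψ, ∃ t, t ∈ F φ ∧ t ∈ F ψ ∧ x t ≠ y t) :
    (∏ φ, ((S φ).card : ℝ) ^ k) * 2 ^ (g * (g - 1)) ≤ ((Fintype.card A : ℝ) ^ c) ^ (g * k) := by
  set N : Fin g → Fin g → ℝ := fun φ ψ => (((S φ).image (proj a0 (F ψ))).card : ℝ) with hN
  have hcov' : ∀ φ, ∀ t ∈ F φ, ((univ.erase φ).filter fun ψ => t ∈ F ψ).card = k := by
    intro φ t ht
    have h1 : (univ.erase φ).filter (fun ψ => t ∈ F ψ) = (univ.filter fun ψ => t ∈ F ψ).erase φ := by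
      ext ψ; simp [and_comm]
    rw [h1, Finset.card_erase_of_mem (by simpa using ht), hcov φ t ht]; simp
  have h1 : ∀ φ, ((S φ).card : ℝ) ^ k ≤ ∏ ψ ∈ univ.erase φ, N φ ψ := by
    intro φ
    have hA : ∀ t ∈ F φ, k ≤ ((univ.erase φ).filter fun ψ => t ∈ F ψ).card :=
      fun t ht => (hcov' φ t ht).ge
    have hB : ∀ x ∈ S φ, ∀ y ∈ S φ, (∀ i ∈ F φ, x i = y i) → x = y := by
      intro x hx y hy h
      funext t
      by_cases ht : t ∈ F φ
      · exact h t ht
      · rw [hsupp φ x hx t ht, hsupp φ y hy t ht]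
    exact shearer' a0 (univ.erase φ) F k hk (F φ) hA (S φ) hB
  have hN0 : ∀ φ ψ, 0 ≤ N φ ψ := fun φ ψ => by positivity
  -- the pair inequality
  have hsub : ∀ φ ψ, (S φ).image (proj a0 (F ψ)) ⊆
      Fintype.piFinset fun t : Fin n => if t ∈ F φ ∩ F ψ then (univ : Finset A) else {a0} := by
    intro φ ψ z hz
    obtain ⟨x, hx, rfl⟩ := mem_image.1 hz
    rw [Fintype.mem_piFinset]
    intro t
    by_cases h1 : t ∈ F φ
    · by_cases h2 : t ∈ F ψ
      · simp [h1, h2]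
      · simp [h2, proj]
    · simp [h1, proj, hsupp φ x hx t h1]
  have h2 : ∀ φ ψ, φ ≠ ψ → N φ ψ + N ψ φ ≤ (Fintype.card A : ℝ) ^ (F φ ∩ F ψ).card := by
    intro φ ψ hne
    have hd : Disjoint ((S φ).image (proj a0 (F ψ))) ((S ψ).image (proj a0 (F φ))) := by
      rw [Finset.disjoint_left]
      intro z hz hz'
      obtain ⟨x, hx, rfl⟩ := mem_image.1 hz
      obtain ⟨y, hy, hxy⟩ := mem_image.1 hz'
      obtain ⟨t, h3, h4, h5⟩ := hdis φ ψ hne x hx y hy
      have := congrFun hxy t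
      simp only [proj, h3, h4, if_true] at this
      exact h5 this.symm
    have hsub' : (S ψ).image (proj a0 (F φ)) ⊆
        Fintype.piFinset fun t : Fin n => if t ∈ F φ ∩ F ψ then (univ : Finset A) else {a0} := by
      rw [inter_comm]
      exact hsub ψ φ
    have h3 := card_le_card (union_subset (hsub φ ψ) hsub')
    rw [card_union_of_disjoint hd, card_supp] at h3
    simp only [hN]
    exact_mod_cast h3
  have h3 : ∀ φ ψ, φ ≠ ψ → N φ ψ * N ψ φ ≤ ((Fintype.card A : ℝ) ^ (F φ ∩ F ψ).card / 2) ^ 2 := by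
    intro φ ψ hne
    have := h2 φ ψ hne
    have := hN0 φ ψ
    have := hN0 ψ φ
    nlinarith [sq_nonneg (N φ ψ - N ψ φ)]
  set P : ℝ := ∏ φ, ∏ ψ ∈ univ.erase φ, N φ ψ with hP
  have hP0 : 0 ≤ P := prod_nonneg fun _ _ => prod_nonneg fun _ _ => hN0 _ _
  have hswap : P = ∏ φ, ∏ ψ ∈ univ.erase φ, N ψ φ := by
    rw [hP]
    refine Finset.prod_comm' ?_
    intro x y
    simp [eq_comm]
  set Q : ℝ := ∏ φ : Fin g, ∏ ψ ∈ univ.erase φ, ((Fintype.card A : ℝ) ^ (F φ ∩ F ψ).card / 2) with hQ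
  have hQ0 : 0 ≤ Q := prod_nonneg fun _ _ => prod_nonneg fun _ _ => by positivity
  have h4 : P ≤ Q := by
    have h5 : P ^ 2 ≤ Q ^ 2 := by
      calc P ^ 2 = P * ∏ φ, ∏ ψ ∈ univ.erase φ, N ψ φ := by rw [← hswap, sq]
        _ = ∏ φ, ∏ ψ ∈ univ.erase φ, (N φ ψ * N ψ φ) := by
            rw [hP, ← prod_mul_distrib]
            exact prod_congr rfl fun φ _ => by rw [prod_mul_distrib]
        _ ≤ ∏ φ : Fin g, ∏ ψ ∈ univ.erase φ, ((Fintype.card A : ℝ) ^ (F φ ∩ F ψ).card / 2) ^ 2 := by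
            refine prod_le_prod (fun φ _ => prod_nonneg fun ψ _ => mul_nonneg (hN0 _ _) (hN0 _ _)) ?_
            intro φ _
            refine prod_le_prod (fun ψ _ => mul_nonneg (hN0 _ _) (hN0 _ _)) ?_
            intro ψ hψ
            exact h3 φ ψ (ne_of_mem_erase hψ).symm
        _ = Q ^ 2 := by
            rw [hQ, ← prod_pow]
            exact prod_congr rfl fun φ _ => by rw [prod_pow]
    exact (pow_le_pow_iff_left₀ hP0 hQ0 two_ne_zero).1 h5
  have hsum : ∀ φ, ∑ ψ ∈ univ.erase φ, (F φ ∩ F ψ).card = c * k := by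
    intro φ
    have h6 : ∀ ψ, (F φ ∩ F ψ).card = ∑ t ∈ F φ, if t ∈ F ψ then 1 else 0 := by
      intro ψ
      rw [← Finset.card_filter, Finset.filter_mem_eq_inter]
    simp only [h6]
    rw [Finset.sum_comm, ← hc φ, Finset.sum_congr rfl (g := fun _ => k)]
    · simp
    · intro t ht
      rw [← Finset.card_filter]
      exact hcov' φ t ht
  have h7 : Q * 2 ^ (g * (g - 1)) = ((Fintype.card A : ℝ) ^ c) ^ (g * k) := by
    have h8 : ∀ φ : Fin g, ∏ ψ ∈ univ.erase φ, ((Fintype.card A : ℝ) ^ (F φ ∩ F ψ).card / 2) =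
        (Fintype.card A : ℝ) ^ (c * k) / 2 ^ (g - 1) := by
      intro φ
      rw [prod_div_distrib, prod_pow_eq_pow_sum, hsum φ, prod_const, card_erase_of_mem (mem_univ _)]
      simp
    rw [hQ, prod_congr rfl fun φ _ => h8 φ, prod_const, card_univ, Fintype.card_fin, div_pow,
      ← pow_mul (2 : ℝ), mul_comm (g - 1) g, div_mul_cancel₀ _ (by positivity), ← pow_mul, ← pow_mul]
    ring_nf
  calc (∏ φ, ((S φ).card : ℝ) ^ k) * 2 ^ (g * (g - 1)) ≤ P * 2 ^ (g * (g - 1)) := by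
        refine mul_le_mul_of_nonneg_right ?_ (by positivity)
        exact prod_le_prod (fun _ _ => by positivity) fun φ _ => h1 φ
    _ ≤ Q * 2 ^ (g * (g - 1)) := mul_le_mul_of_nonneg_right h4 (by positivity)
    _ = _ := h7

end Pool.Agent.H327.UPW
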