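import Pool.Agent.H327.UPW.Main

/-!
# Cyclic universal partial words: the period of the diamonds
-/

set_option autoImplicit false

namespace Pool.Agent.H327.UPW

open Finset

section
variable {a : ℕ} {v : List (Option (Fin a))}

/-- `v` is cyclic: its first and last `n - 1` characters coincide and do not overlap. -/
def IsCyclic {a : ℕ} (n : ℕ) (v : List (Option (Fin a))) : Prop :=
  2 * (n - 1) ≤ v.length ∧ ∀ i : ℕ, i < n - 1 → v[i]? = v[v.length - (n - 1) + i]?

theorem cyc_period {n d : ℕ} (ha : 2 ≤ a) (hdn : d < n) (hu : IsUniversal n v)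
    (hd : HasDiamondicity n d v) (hc : IsCyclic n v) (j : ℕ)
    (hj : j + Nat.gcd n (a ^ (n - d)) < v.length) :
    isL v j ↔ isL v (j + Nat.gcd n (a ^ (n - d))) := by
  have hLn := windows_ge ha hdn hu hd
  have hLa : v.length + 1 - n = a ^ (n - d) := windows' (by omega) hu hd hdn.le
  obtain ⟨L, hL⟩ : ∃ L, L = v.length + 1 - n := ⟨_, rfl⟩
  rw [← hLa, ← hL] at hj ⊢
  rw [← hL] at hLn
  have hlen : v.length = L + (n - 1) := by omega
  have hcy : ∀ i, i < n - 1 → (isL v i ↔ isL v (L + i)) := by
    intro i hi
    have h1 := hc.2 i hi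
    have h2 : v.length - (n - 1) + i = L + i := by omega
    rw [h2] at h1
    unfold isL
    rw [h1]
  have hL0 : 0 < L := by omega
  -- periodic extension
  have h1 : ∀ i, i < v.length → (isL v i ↔ isL v (i % L)) := by
    intro i hi
    rcases Nat.lt_or_ge i L with h | h
    · rw [Nat.mod_eq_of_lt h]
    · obtain ⟨i', rfl⟩ := Nat.exists_eq_add_of_le h
      rw [Nat.add_mod_left, Nat.mod_eq_of_lt (by omega)]
      exact (hcy i' (by omega)).symm
  have h2 : ∀ i, isL v (i % L) ↔ isL v ((i + n) % L) := by
    intro i
    have h3 : (i + n) % L = (i % L + n) % L := by rw [Nat.mod_add_mod]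
    rw [h3]
    have h4 : i % L < L := Nat.mod_lt _ hL0
    generalize i % L = i' at h4
    rcases Nat.lt_or_ge (i' + n) v.length with h5 | h5
    · rw [← h1 _ h5]
      exact period hd h5
    · have h6 : i' = L - 1 := by omega
      subst h6
      have h7 := cnt_window hd (i := L - 1) (by omega)
      have h8 := cnt_window hd (i := 0) (by omega)
      obtain ⟨n', rfl⟩ : ∃ n', n = n' + 1 := ⟨n - 1, by omega⟩
      rw [cnt_succ'] at h7
      rw [cnt_succ] at h8
      have h9 : cnt v (L - 1 + 1) n' = cnt v 0 n' := by
        unfold cnt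
        refine sum_congr rfl fun t ht => ?_
        rw [mem_range] at ht
        have := hcy t (by omega)
        have h10 : L - 1 + 1 + t = L + t := by omega
        rw [h10, zero_add]
        by_cases hA : isL v t
        · rw [if_pos hA, if_pos (this.1 hA)]
        · rw [if_neg hA, if_neg fun h => hA (this.2 h)]
      rw [h9] at h7
      rw [zero_add] at h8
      have h11 : (L - 1 + (n' + 1)) % L = n' := by
        have : L - 1 + (n' + 1) = L + n' := by omega
        rw [this, Nat.add_mod_left, Nat.mod_eq_of_lt (by omega)]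
      rw [h11]
      by_cases hA : isL v (L - 1)
      · rw [if_pos hA] at h7
        by_cases hB : isL v n'
        · exact ⟨fun _ => hB, fun _ => hA⟩
        · rw [if_neg hB] at h8
          omega
      · rw [if_neg hA] at h7
        by_cases hB : isL v n'
        · rw [if_pos hB] at h8
          omega
        · exact ⟨fun h => absurd h hA, fun h => absurd h hB⟩
  have h3 : ∀ m i, isL v (i % L) ↔ isL v ((i + n * m) % L) := by
    intro m
    induction m with
    | zero => intro i; simp
    | succ m ih =>
      intro i
      rw [ih i, h2 (i + n * m), Nat.mul_succ, add_assoc]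
  have h4 : ∀ i, isL v (i % L) ↔ isL v ((i + Nat.gcd n L) % L) := by
    intro i
    rcases Nat.lt_or_ge (Nat.gcd n L) L with h5 | h5
    · obtain ⟨m, -, hm⟩ := Nat.exists_mul_mod_eq_gcd h5
      rw [← hm, Nat.add_mod_mod]
      exact h3 m i
    · have h6 : Nat.gcd n L ≤ n := Nat.gcd_le_left _ (by omega)
      have h7 : Nat.gcd n L = n := by omega
      rw [h7]
      exact h2 i
  rw [h1 _ hj, h1 j (by omega)]
  exact h4 j

end

end Pool.Agent.H327.UPW
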