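import Pool.Agent.H327.UPW.Word

/-!
# Universal partial words: the entropy bound for the diamondicity
-/

set_option autoImplicit false

namespace Pool.Agent.H327.UPW

open Finset

section
variable {a : ℕ} {v : List (Option (Fin a))}

lemma cnt_mono (i : ℕ) {k l : ℕ} (h : k ≤ l) : cnt v i k ≤ cnt v i l := by
  obtain ⟨m, rfl⟩ := Nat.exists_eq_add_of_le h
  rw [cnt_add]; omega

lemma two_pow_ge (c : ℕ) (hc : 1 ≤ c) : c * (c - 1) + 2 ≤ 2 ^ c := by
  induction c, hc using Nat.le_induction with
  | base => simp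
  | succ c hc ih =>
    rcases Nat.lt_or_ge c 3 with h | h
    · interval_cases c <;> simp
    · have h1 : 2 * c ≤ c * (c - 1) := by
        have : 2 ≤ c - 1 := by omega
        nlinarith
      have h2 : (c + 1) * (c + 1 - 1) = c * (c - 1) + 2 * c := by
        obtain ⟨e, rfl⟩ := Nat.exists_eq_add_of_le hc
        simp only [Nat.add_sub_cancel_left, Nat.add_sub_cancel]
        ring
      rw [h2, pow_succ]
      omega

/-- the number of windows is `a ^ (n - d)` -/
lemma windows' {n d : ℕ} (ha : 0 < a) (hu : IsUniversal n v) (hd : HasDiamondicity n d v)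
    (hdn : d ≤ n) : v.length + 1 - n = a ^ (n - d) := by
  have h1 := windows ⟨0, ha⟩ hu hd
  have h2 : a ^ n = a ^ (n - d) * a ^ d := by rw [← pow_add]; congr 1; omega
  rw [h2] at h1
  exact Nat.eq_of_mul_eq_mul_right (pow_pos ha d) h1

/-- there are at least `n` windows -/
lemma windows_ge {n d : ℕ} (ha : 2 ≤ a) (hdn : d < n) (hu : IsUniversal n v)
    (hd : HasDiamondicity n d v) : n ≤ v.length + 1 - n := by
  by_contra hcon
  push Not at hcon
  set L := v.length + 1 - n with hL
  have hLa : L = a ^ (n - d) := windows' (by omega) hu hd hdn.le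
  have hL1 : 1 ≤ L := by rw [hLa]; exact Nat.one_le_pow _ _ (by omega)
  set c := n - d with hc
  have hc1 : 1 ≤ c := by omega
  have hN : ∀ t : Fin n, cnt v t L ≤ c := by
    intro t
    have ht := t.2
    obtain ⟨s, hs⟩ : ∃ s, s = min t.val (L - 1) := ⟨_, rfl⟩
    have h1 : s ≤ t := by omega
    have h2 : s + n ≤ v.length := by omega
    have h3 := cnt_window hd h2
    have h4 : cnt v s n = cnt v s (t - s) + cnt v t (n - (t - s)) := by
      have h5 := cnt_add (v := v) s (t - s) (n - (t - s))
      have h6 : t.val - s + (n - (t - s)) = n := by omega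
      have h7 : s + (t.val - s) = t := by omega
      rw [h6, h7] at h5
      exact h5
    have h5 := cnt_mono (v := v) t.val (k := L) (l := n - (t - s)) (by omega)
    omega
  have hcnt : ∀ t : ℕ, cnt v t L = ((range L).filter fun i => isL v (i + t)).card := by
    intro t
    unfold cnt
    rw [Finset.card_filter]
    exact sum_congr rfl fun i _ => by rw [add_comm]
  have h1 : (range L).offDiag ⊆ (univ : Finset (Fin n)).biUnion fun t =>
      ((range L).filter fun i => isL v (i + t)).offDiag := by
    rintro ⟨i, j⟩ hij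
    rw [mem_offDiag, mem_range, mem_range] at hij
    obtain ⟨t, h3, h4, -⟩ := conflict (⟨0, by omega⟩ : Fin a) hu (i := i) (j := j) (by omega)
      (by omega) hij.2.2
    simp only [mem_biUnion, mem_univ, true_and, mem_offDiag, mem_filter, mem_range]
    exact ⟨t, ⟨hij.1, h3⟩, ⟨hij.2.1, h4⟩, hij.2.2⟩
  have h2 := (card_le_card h1).trans card_biUnion_le
  rw [offDiag_card, card_range] at h2
  have h3 : ∑ t : Fin n, (((range L).filter fun i => isL v (i + t)).offDiag).card ≤
      ∑ t : Fin n, (c - 1) * cnt v t L := by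
    refine sum_le_sum fun t _ => ?_
    rw [offDiag_card, ← hcnt]
    have h4 := hN t
    have h5 : cnt v t L * cnt v t L ≤ c * cnt v t L := Nat.mul_le_mul_right _ h4
    have h6 : (c - 1) * cnt v t L = c * cnt v t L - cnt v t L := by
      rw [Nat.sub_mul, one_mul]
    omega
  have h4 : ∑ t : Fin n, cnt v t L = L * c := by
    have h5 : ∀ t : Fin n, cnt v t L = ∑ i ∈ range L, if isL v (i + t) then 1 else 0 := by
      intro t
      unfold cnt
      exact sum_congr rfl fun i _ => by rw [add_comm]
    simp only [h5]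
    rw [sum_comm, sum_congr rfl (g := fun _ => c)]
    · simp
    · intro i hi
      rw [mem_range] at hi
      rw [← Finset.card_filter]
      exact card_F hd (by omega)
  rw [← mul_sum, h4] at h3
  have h5 := h2.trans h3
  have h6 : L * L ≤ L * ((c - 1) * c + 1) := by
    have : (c - 1) * (L * c) = L * ((c - 1) * c) := by ring
    rw [Nat.mul_add, mul_one]
    omega
  have h7 := Nat.le_of_mul_le_mul_left h6 (by omega)
  have h8 := two_pow_ge c hc1
  have h9 : 2 ^ c ≤ a ^ c := Nat.pow_le_pow_left ha c
  rw [hLa] at h7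
  have h10 : (c - 1) * c = c * (c - 1) := mul_comm _ _
  omega

/-- **The entropy bound** for diamonds of period `g`, where `g` divides `n`. -/
theorem main_per {n d g : ℕ} (ha : 2 ≤ a) (hdn : d < n) (hu : IsUniversal n v)
    (hd : HasDiamondicity n d v) (hg0 : 0 < g) (hgn : g ∣ n)
    (hper : ∀ j, j + g < v.length → (isL v j ↔ isL v (j + g))) :
    ∃ m, m * n = (n - d) * g ∧ 1 ≤ m ∧
      (a ^ (n - d) / g) ^ (m - 1) * 2 ^ (g - 1) ≤ (a ^ (n - d)) ^ (m - 1) := by
  classical
  have hLn := windows_ge ha hdn hu hd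
  set L := v.length + 1 - n with hL
  have hLa : L = a ^ (n - d) := windows' (by omega) hu hd hdn.le
  have hgle : g ≤ n := Nat.le_of_dvd (by omega) hgn
  obtain ⟨r, hr⟩ := hgn
  have hmr : cnt v 0 g * r = n - d := by
    rw [← cnt_mul hper r (by omega), ← hr]
    exact cnt_window hd (by omega)
  have hm1 : 1 ≤ cnt v 0 g := by
    rcases Nat.eq_zero_or_pos (cnt v 0 g) with h | h
    · rw [h, zero_mul] at hmr; omega
    · exact h
  refine ⟨cnt v 0 g, ?_, hm1, ?_⟩
  · rw [← hmr, hr]; ring
  rcases Nat.lt_or_ge g 2 with hg2 | hg2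
  · have : g = 1 := by omega
    subst this
    simp
  set m := cnt v 0 g with hm
  have a0 : Fin a := ⟨0, by omega⟩
  -- at least two letters in a period
  have hm2 : 2 ≤ m := by
    obtain ⟨t, h1, h2, -⟩ := conflict a0 hu (i := 0) (j := 1) (by omega) (by omega) (by omega)
    have ht := t.2
    have h3 := cnt_period hper (i := t.val) (by omega)
    have h4 := cnt_mono (v := v) t.val (k := 2) (l := g) hg2
    have h7 : cnt v t.val 0 = 0 := by simp [cnt]
    rw [zero_add] at h1
    rw [add_comm] at h2
    have h5 : cnt v t.val 2 = cnt v t.val 1 + 1 := by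
      have := cnt_succ (v := v) t.val 1
      rwa [if_pos h2] at this
    have h6 : cnt v t.val 1 = cnt v t.val 0 + 1 := by
      have := cnt_succ (v := v) t.val 0
      rwa [add_zero, if_pos h1] at this
    omega
  rw [← hLa]
  set q := L / g with hq
  set k := m - 1 with hk
  -- data
  let V : ℕ → Fin n → Fin a := fun i t => vl v a0 (i + t)
  let W : Fin g → Finset ℕ := fun φ => (range L).filter fun i => i % g = φ
  let F : Fin g → Finset (Fin n) := fun φ => univ.filter fun t => isL v (φ + t)
  let S : Fin g → Finset (Fin n → Fin a) := fun φ => (W φ).image V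
  have hfr : ∀ φ : Fin g, ∀ i ∈ W φ, ∀ t : Fin n, isL v (φ + t) ↔ isL v (i + t) := by
    intro φ i hi t
    have hi' := mem_filter.1 hi
    rw [mem_range] at hi'
    have h1 := Nat.mod_add_div i g
    rw [hi'.2] at h1
    have h2 := period_mul hper (i / g) (j := φ.val + t.val) (by have := t.2; omega)
    have h3 : φ.val + t.val + g * (i / g) = i + t := by omega
    rw [h3] at h2
    exact h2
  have hWL : ∀ φ : Fin g, ∀ i ∈ W φ, i + n ≤ v.length := by
    intro φ i hi
    have := (mem_filter.1 hi).1
    rw [mem_range] at this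
    omega
  have hinj : ∀ φ : Fin g, (S φ).card = (W φ).card := by
    intro φ
    refine card_image_of_injOn ?_
    intro i hi j hj hij
    by_contra hne
    obtain ⟨t, -, -, h3⟩ := conflict a0 hu (hWL φ i hi) (hWL φ j hj) hne
    exact h3 (congrFun hij t)
  have hWq : ∀ φ : Fin g, q ≤ (W φ).card := by
    intro φ
    have h1 : (range q).image (fun s => φ.val + g * s) ⊆ W φ := by
      intro i hi
      obtain ⟨s, hs, rfl⟩ := mem_image.1 hi
      rw [mem_range] at hs
      have h2 : g * (s + 1) ≤ L := (Nat.mul_le_mul_left g hs).trans (Nat.mul_div_le L g)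
      have h3 := φ.2
      simp only [W, mem_filter, mem_range]
      refine ⟨by rw [Nat.mul_succ] at h2; omega, ?_⟩
      rw [Nat.add_mul_mod_self_left, Nat.mod_eq_of_lt h3]
    have h2 := card_le_card h1
    rwa [card_image_of_injective _ (by
      intro s s' h
      have : g * s = g * s' := by simpa using h
      exact Nat.eq_of_mul_eq_mul_left hg0 this), card_range] at h2
  have hcore := entropy_ineq (A := Fin a) a0 n g (n - d) k (by omega) F
    (fun φ => card_F hd (by have := φ.2; omega)) ?_ S ?_ ?_
  · have h1 : ((q : ℝ) ^ k) ^ g ≤ ∏ φ, ((S φ).card : ℝ) ^ k := by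
      have : ((q : ℝ) ^ k) ^ g = ∏ _φ : Fin g, (q : ℝ) ^ k := by simp
      rw [this]
      refine prod_le_prod (fun _ _ => by positivity) fun φ _ => ?_
      refine pow_le_pow_left₀ (by positivity) ?_ k
      rw [hinj φ]
      exact_mod_cast hWq φ
    have h2 : ((q : ℝ) ^ k * 2 ^ (g - 1)) ^ g ≤ ((L : ℝ) ^ k) ^ g := by
      calc ((q : ℝ) ^ k * 2 ^ (g - 1)) ^ g = ((q : ℝ) ^ k) ^ g * 2 ^ (g * (g - 1)) := by
            rw [mul_pow, ← pow_mul (2 : ℝ), mul_comm (g - 1) g]
        _ ≤ (∏ φ, ((S φ).card : ℝ) ^ k) * 2 ^ (g * (g - 1)) :=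
            mul_le_mul_of_nonneg_right h1 (by positivity)
        _ ≤ _ := hcore
        _ = ((L : ℝ) ^ k) ^ g := by
            rw [hLa, Fintype.card_fin]
            push_cast
            rw [← pow_mul, ← pow_mul, ← pow_mul]
            ring_nf
    have h3 : (q : ℝ) ^ k * 2 ^ (g - 1) ≤ (L : ℝ) ^ k :=
      (pow_le_pow_iff_left₀ (by positivity) (by positivity) hg0.ne').1 h2
    exact_mod_cast h3
  · intro φ t ht
    have h1 := cnt_period hper (i := t.val) (by have := t.2; omega)
    have h2 : (univ.filter fun ψ : Fin g => t ∈ F ψ).card = cnt v t.val g := by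
      unfold cnt
      rw [← Fin.sum_univ_eq_sum_range (fun s => if isL v (t.val + s) then 1 else 0) g,
        Finset.card_filter]
      refine sum_congr rfl fun ψ _ => ?_
      simp only [F, mem_filter, mem_univ, true_and, add_comm]
    rw [h2, h1]
    omega
  · intro φ x hx t ht
    obtain ⟨i, hi, rfl⟩ := mem_image.1 hx
    simp only [F, mem_filter, mem_univ, true_and] at ht
    rw [hfr φ i hi t] at ht
    exact vl_of_not ht
  · intro φ ψ hne x hx y hy
    obtain ⟨i, hi, rfl⟩ := mem_image.1 hx
    obtain ⟨j, hj, rfl⟩ := mem_image.1 hy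
    have hij : i ≠ j := by
      rintro rfl
      apply hne
      apply Fin.ext
      rw [← (mem_filter.1 hi).2, ← (mem_filter.1 hj).2]
    obtain ⟨t, h1, h2, h3⟩ := conflict a0 hu (hWL φ i hi) (hWL ψ j hj) hij
    refine ⟨t, ?_, ?_, h3⟩
    · simp only [F, mem_filter, mem_univ, true_and]
      exact (hfr φ i hi t).2 h1
    · simp only [F, mem_filter, mem_univ, true_and]
      exact (hfr ψ j hj t).2 h2

end

end Pool.Agent.H327.UPW
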