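import Mathlib

/-!
# Shearer's inequality

Copied from the library module `Pool.Graph.R_pool_sql_team_ae5b0c61.H27.Shearer`.
-/

set_option autoImplicit false

namespace Pool.Agent.H327.UPW

open Classical Finset

noncomputable def proj {ι α : Type*} (a0 : α) (C : Finset ι) (x : ι → α) : ι → α :=
  fun i => if i ∈ C then x i else a0

lemma amgm_step {J T : Type*} (J1 : Finset J) (k : ℕ) (hk : 0 < k) (hJ : J1.card = k)
    (T0 : Finset T) (s : T → ℝ) (a : J → T → ℝ) (A : J → ℝ) (P : ℝ) (hP : 0 < P)
    (hs : ∀ t ∈ T0, 0 ≤ s t) (ha : ∀ j ∈ J1, ∀ t ∈ T0, 0 ≤ a j t) (hA : ∀ j ∈ J1, 0 < A j)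
    (hsum : ∀ j ∈ J1, ∑ t ∈ T0, a j t ≤ A j)
    (hle : ∀ t ∈ T0, s t ^ k ≤ P * ∏ j ∈ J1, a j t) :
    (∑ t ∈ T0, s t) ^ k ≤ P * ∏ j ∈ J1, A j := by
  have hk' : (0 : ℝ) < k := by exact_mod_cast hk
  set Q := P * ∏ j ∈ J1, A j with hQ
  have hAp : 0 < ∏ j ∈ J1, A j := Finset.prod_pos hA
  have hQp : 0 < Q := mul_pos hP hAp
  set q := Q ^ ((k : ℝ)⁻¹) with hq
  have hqp : 0 < q := Real.rpow_pos_of_pos hQp _
  have hqk : q ^ k = Q := Real.rpow_inv_natCast_pow hQp.le hk.ne'
  have h1 : ∀ t ∈ T0, s t / q ≤ ∑ j ∈ J1, (k : ℝ)⁻¹ * (a j t / A j) := by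
    intro t ht
    have hz : ∀ j ∈ J1, 0 ≤ a j t / A j := fun j hj => div_nonneg (ha j hj t ht) (hA j hj).le
    have g := Real.geom_mean_le_arith_mean_weighted J1 (fun _ => (k : ℝ)⁻¹)
      (fun j => a j t / A j) (fun _ _ => by positivity)
      (by rw [Finset.sum_const, hJ, nsmul_eq_mul, mul_inv_cancel₀ hk'.ne']) hz
    refine le_trans ?_ g
    rw [Real.finsetProd_rpow _ _ hz]
    have h2 : (s t / q) ^ k ≤ ∏ j ∈ J1, a j t / A j := by
      rw [div_pow, hqk, Finset.prod_div_distrib, div_le_div_iff₀ hQp hAp, hQ]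
      have := hle t ht
      nlinarith
    have h3 : s t / q = ((s t / q) ^ k) ^ ((k : ℝ)⁻¹) :=
      (Real.pow_rpow_inv_natCast (div_nonneg (hs t ht) hqp.le) hk.ne').symm
    rw [h3]
    exact Real.rpow_le_rpow (by have := hs t ht; positivity) h2 (by positivity)
  have h2 : (∑ t ∈ T0, s t) / q ≤ 1 := by
    rw [Finset.sum_div]
    refine le_trans (Finset.sum_le_sum h1) ?_
    rw [Finset.sum_comm]
    calc ∑ j ∈ J1, ∑ t ∈ T0, (k : ℝ)⁻¹ * (a j t / A j) ≤ ∑ j ∈ J1, (k : ℝ)⁻¹ := by
          apply Finset.sum_le_sum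
          intro j hj
          rw [← Finset.mul_sum, ← Finset.sum_div]
          have := (div_le_one (hA j hj)).2 (hsum j hj)
          have h0 : (0 : ℝ) ≤ (k : ℝ)⁻¹ := by positivity
          nlinarith
      _ = 1 := by rw [Finset.sum_const, hJ, nsmul_eq_mul, mul_inv_cancel₀ hk'.ne']
  rw [div_le_one hqp] at h2
  rw [← hqk]
  exact pow_le_pow_left₀ (Finset.sum_nonneg hs) h2 k

theorem shearer {ι α J : Type*} (a0 : α) (J0 : Finset J) (C : J → Finset ι) (k : ℕ) (hk : 0 < k)
    (F : Finset ι) (hcov : ∀ i ∈ F, k ≤ (J0.filter fun j => i ∈ C j).card) :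
    ∀ S : Finset (ι → α), (∀ x ∈ S, ∀ y ∈ S, (∀ i ∈ F, x i = y i) → x = y) →
      ((S.card : ℝ)) ^ k ≤ ∏ j ∈ J0, ((S.image (proj a0 (C j))).card : ℝ) := by
  induction F using Finset.induction_on with
  | empty =>
    intro S hS
    rcases S.eq_empty_or_nonempty with rfl | hne
    · simp only [card_empty, CharP.cast_eq_zero, zero_pow hk.ne']
      exact Finset.prod_nonneg fun _ _ => by positivity
    · have h1 : S.card ≤ 1 := Finset.card_le_one.2 fun x hx y hy => hS x hx y hy (by simp)
      have h2 : (S.card : ℝ) ^ k ≤ 1 := pow_le_one₀ (by positivity) (by exact_mod_cast h1)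
      refine le_trans h2 (Finset.one_le_prod ?_)
      intro j _
      exact_mod_cast (hne.image _).card_pos
  | insert n F hn ih =>
    intro S hS
    rcases S.eq_empty_or_nonempty with rfl | hne
    · simp only [card_empty, CharP.cast_eq_zero, zero_pow hk.ne']
      exact Finset.prod_nonneg fun _ _ => by positivity
    obtain ⟨J1, hJ1, hc⟩ := Finset.exists_subset_card_eq (hcov n (mem_insert_self _ _))
    have hJ0 : J1 ⊆ J0 := hJ1.trans (filter_subset _ _)
    have ih' := ih fun i hi => hcov i (mem_insert_of_mem hi)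
    rw [Finset.card_eq_sum_card_image (fun x => x n) S, ← Finset.prod_sdiff hJ0]
    push_cast
    apply amgm_step J1 k hk hc _ _
      (fun j t => (((S.filter fun x => x n = t).image (proj a0 (C j))).card : ℝ))
    · apply Finset.prod_pos
      intro j _
      exact_mod_cast (hne.image _).card_pos
    · intro t _; positivity
    · intro j _ t _; positivity
    · intro j _
      exact_mod_cast (hne.image _).card_pos
    · intro j hj
      have hnj : n ∈ C j := (mem_filter.1 (hJ1 hj)).2
      rw [Finset.card_eq_sum_card_fiberwise (f := fun x => x n)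
        (s := S.image (proj a0 (C j))) (t := S.image fun x => x n)]
      · push_cast
        apply Finset.sum_le_sum
        intro t _
        have : (S.filter fun x => x n = t).image (proj a0 (C j)) ⊆
            (S.image (proj a0 (C j))).filter fun x => x n = t := by
          intro y hy
          obtain ⟨x, hx, rfl⟩ := mem_image.1 hy
          rw [mem_filter] at hx ⊢
          exact ⟨mem_image_of_mem _ hx.1, by simp [proj, hnj, hx.2]⟩
        exact_mod_cast card_le_card this
      · intro y hy
        obtain ⟨x, hx, rfl⟩ := mem_image.1 (mem_coe.1 hy)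
        exact mem_coe.2 (mem_image.2 ⟨x, hx, by simp [proj, hnj]⟩)
    · intro t _
      refine le_trans (ih' (S.filter fun x => x n = t) ?_) ?_
      · intro x hx y hy h
        rw [mem_filter] at hx hy
        apply hS x hx.1 y hy.1
        intro i hi
        rcases mem_insert.1 hi with rfl | hi
        · rw [hx.2, hy.2]
        · exact h i hi
      · rw [← Finset.prod_sdiff hJ0]
        apply mul_le_mul_of_nonneg_right
        · apply Finset.prod_le_prod
          · intro _ _; positivity
          · intro j _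
            exact_mod_cast card_le_card (image_subset_image (filter_subset _ _))
        · exact Finset.prod_nonneg fun _ _ => by positivity

/-- Shearer's inequality with arbitrary decidability instances. -/
theorem shearer' {ι α J : Type*} [i1 : DecidableEq ι] [i2 : DecidableEq (ι → α)] (a0 : α)
    (J0 : Finset J) (C : J → Finset ι) (k : ℕ) (hk : 0 < k)
    (F : Finset ι) (hcov : ∀ i ∈ F, k ≤ (J0.filter fun j => i ∈ C j).card)
    (S : Finset (ι → α)) (hS : ∀ x ∈ S, ∀ y ∈ S, (∀ i ∈ F, x i = y i) → x = y) :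
    ((S.card : ℝ)) ^ k ≤ ∏ j ∈ J0, ((S.image (proj a0 (C j))).card : ℝ) := by
  obtain rfl : i1 = fun a b => Classical.propDecidable (a = b) := Subsingleton.elim _ _
  obtain rfl : i2 = fun a b => Classical.propDecidable (a = b) := Subsingleton.elim _ _
  exact shearer a0 J0 C k hk F hcov S hS

end Pool.Agent.H327.UPW
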