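import Pool.Agent.H327.UPW.Core

/-!
# Universal partial words: windows, frames, and the entropy bound
-/

set_option autoImplicit false

namespace Pool.Agent.H327.UPW

open Finset

/-- The window of `v` starting at `i` covers the word `u` of length `n`. -/
def CoversAt {a n : ℕ} (v : List (Option (Fin a))) (u : Fin n → Fin a) (i : ℕ) : Prop :=
  i + n ≤ v.length ∧ ∀ j : Fin n, v[i + j.val]? = some none ∨ v[i + j.val]? = some (some (u j))

/-- `v` is a universal partial word for the words of length `n`. -/
def IsUniversal {a : ℕ} (n : ℕ) (v : List (Option (Fin a))) : Prop :=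
  ∀ u : Fin n → Fin a, ∃! i : ℕ, CoversAt v u i

/-- Every window of length `n` of `v` has exactly `d` diamonds. -/
def HasDiamondicity {a : ℕ} (n d : ℕ) (v : List (Option (Fin a))) : Prop :=
  ∀ i : ℕ, i + n ≤ v.length →
    (Finset.univ.filter fun j : Fin n => v[i + j.val]? = some none).card = d

/-- The place `j` of `v` is a letter. -/
def isL {a : ℕ} (v : List (Option (Fin a))) (j : ℕ) : Prop := v[j]? ≠ some none

instance {a : ℕ} (v : List (Option (Fin a))) (j : ℕ) : Decidable (isL v j) := by
  unfold isL; infer_instance

/-- The letter at the place `j` (`a0` if there is none). -/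
def vl {a : ℕ} (v : List (Option (Fin a))) (a0 : Fin a) (j : ℕ) : Fin a :=
  match v[j]? with
  | some (some x) => x
  | _ => a0

section
variable {a : ℕ} {v : List (Option (Fin a))} {a0 : Fin a}

lemma vl_of_not {j : ℕ} (h : ¬ isL v j) : vl v a0 j = a0 := by
  unfold isL at h
  rw [not_not] at h
  unfold vl
  rw [h]

lemma get_of_isL {j : ℕ} (hj : j < v.length) (h : isL v j) : v[j]? = some (some (vl v a0 j)) := by
  unfold isL at h
  unfold vl
  rw [List.getElem?_eq_getElem hj] at h ⊢
  cases hx : v[j] with
  | none => rw [hx] at h; exact absurd rfl h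
  | some x => rfl

/-- two different windows have a conflict -/
lemma conflict {n : ℕ} (a0 : Fin a) (hu : IsUniversal n v) {i j : ℕ} (hi : i + n ≤ v.length)
    (hj : j + n ≤ v.length) (hij : i ≠ j) :
    ∃ t : Fin n, isL v (i + t) ∧ isL v (j + t) ∧ vl v a0 (i + t) ≠ vl v a0 (j + t) := by
  by_contra hcon
  push Not at hcon
  let u : Fin n → Fin a := fun t => if isL v (i + t) then vl v a0 (i + t) else vl v a0 (j + t)
  have h1 : CoversAt v u i := by
    refine ⟨hi, fun t => ?_⟩
    by_cases ht : isL v (i + t)
    · right
      have : u t = vl v a0 (i + t) := by simp only [u, ht, if_true]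
      rw [this]
      exact get_of_isL (by have := t.2; omega) ht
    · left
      unfold isL at ht
      rwa [not_not] at ht
  have h2 : CoversAt v u j := by
    refine ⟨hj, fun t => ?_⟩
    by_cases ht : isL v (j + t)
    · right
      have : u t = vl v a0 (j + t) := by
        by_cases ht' : isL v (i + t)
        · simp only [u, ht', if_true]
          exact hcon t ht' ht
        · simp only [u, ht', if_false]
      rw [this]
      exact get_of_isL (by have := t.2; omega) ht
    · left
      unfold isL at ht
      rwa [not_not] at ht
  exact hij ((hu u).unique h1 h2)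

/-- number of letters among the `k` places from `i` on -/
def cnt (v : List (Option (Fin a))) (i k : ℕ) : ℕ := ∑ t ∈ range k, if isL v (i + t) then 1 else 0

lemma cnt_add (i k l : ℕ) : cnt v i (k + l) = cnt v i k + cnt v (i + k) l := by
  unfold cnt
  rw [Finset.sum_range_add]
  simp only [add_assoc]

lemma cnt_succ (i k : ℕ) : cnt v i (k + 1) = cnt v i k + if isL v (i + k) then 1 else 0 := by
  rw [cnt_add]
  congr 1

lemma cnt_succ' (i k : ℕ) : cnt v i (k + 1) = (if isL v i then 1 else 0) + cnt v (i + 1) k := by
  rw [add_comm k 1, cnt_add]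
  congr 1

lemma cnt_window {n d : ℕ} (hd : HasDiamondicity n d v) {i : ℕ} (hi : i + n ≤ v.length) :
    cnt v i n = n - d := by
  have h1 := hd i hi
  have h2 : cnt v i n = (Finset.univ.filter fun j : Fin n => isL v (i + j)).card := by
    unfold cnt
    rw [Finset.card_filter, ← Fin.sum_univ_eq_sum_range (fun t => if isL v (i + t) then 1 else 0) n]
  have h3 := Finset.card_filter_add_card_filter_not (s := (Finset.univ : Finset (Fin n)))
    (fun j : Fin n => v[i + j.val]? = some none)
  rw [Finset.card_univ, Fintype.card_fin, h1] at h3
  have h4 : (Finset.univ.filter fun j : Fin n => isL v (i + j)).card =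
      (Finset.univ.filter fun j : Fin n => ¬ (v[i + j.val]? = some none)).card := by
    congr 1
  rw [h2, h4]
  omega

lemma card_F {n d : ℕ} (hd : HasDiamondicity n d v) {i : ℕ} (hi : i + n ≤ v.length) :
    (Finset.univ.filter fun j : Fin n => isL v (i + j)).card = n - d := by
  rw [← cnt_window hd hi]
  unfold cnt
  rw [Finset.card_filter, ← Fin.sum_univ_eq_sum_range (fun t => if isL v (i + t) then 1 else 0) n]

/-- the diamonds have period `n` -/
lemma period {n d : ℕ} (hd : HasDiamondicity n d v) {j : ℕ} (hj : j + n < v.length) :
    isL v j ↔ isL v (j + n) := by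
  have h1 := cnt_window hd (i := j) (by omega)
  have h2 := cnt_window hd (i := j + 1) (by omega)
  have h3 := cnt_succ (v := v) j n
  have h4 := cnt_succ' (v := v) j n
  rw [h1] at h3
  rw [h2] at h4
  rw [h3] at h4
  by_cases hA : isL v j <;> by_cases hB : isL v (j + n) <;> simp [hA, hB] at h4 ⊢

lemma period_mul {g : ℕ} (hper : ∀ j, j + g < v.length → (isL v j ↔ isL v (j + g))) (q : ℕ) {j : ℕ}
    (hj : j + g * q < v.length) : isL v j ↔ isL v (j + g * q) := by
  induction q with
  | zero => simp
  | succ q ih =>
    have h1 : j + g * q + g < v.length := by rw [Nat.mul_succ] at hj; omega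
    rw [ih (by omega), hper _ h1, Nat.mul_succ, ← add_assoc]

lemma cnt_period {g : ℕ} (hper : ∀ j, j + g < v.length → (isL v j ↔ isL v (j + g))) {i : ℕ}
    (hi : i + g ≤ v.length) : cnt v i g = cnt v 0 g := by
  induction i with
  | zero => rfl
  | succ i ih =>
    rw [← ih (by omega)]
    have h1 := cnt_succ (v := v) i g
    have h2 := cnt_succ' (v := v) i g
    have h3 := hper i (by omega)
    by_cases hA : isL v i
    · have hB := h3.1 hA
      simp only [hA, hB, if_true] at h1 h2
      omega
    · have hB : ¬ isL v (i + g) := fun h => hA (h3.2 h)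
      simp only [hA, hB, if_false] at h1 h2
      omega

lemma cnt_mul {g : ℕ} (hper : ∀ j, j + g < v.length → (isL v j ↔ isL v (j + g))) (q : ℕ)
    (hq : g * q ≤ v.length) : cnt v 0 (g * q) = cnt v 0 g * q := by
  induction q with
  | zero => simp [cnt]
  | succ q ih =>
    have h1 := cnt_period hper (i := g * q) (by rw [Nat.mul_succ] at hq; omega)
    rw [Nat.mul_succ, cnt_add, ih (by rw [Nat.mul_succ] at hq; omega), zero_add, h1, Nat.mul_succ]

/-- the number of windows -/
lemma windows {n d : ℕ} (a0 : Fin a) (hu : IsUniversal n v) (hd : HasDiamondicity n d v) :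
    (v.length + 1 - n) * a ^ d = a ^ n := by
  classical
  have h1 : (univ : Finset (Fin n → Fin a)) = (range (v.length + 1 - n)).biUnion fun i =>
      univ.filter fun u => CoversAt v u i := by
    ext u
    simp only [mem_univ, mem_biUnion, mem_range, mem_filter, true_and, true_iff]
    obtain ⟨i, hi, -⟩ := hu u
    exact ⟨i, by have := hi.1; omega, hi⟩
  have h2 : (univ : Finset (Fin n → Fin a)).card = a ^ n := by simp
  rw [← h2, h1, card_biUnion]
  · rw [Finset.sum_congr rfl (g := fun _ => a ^ d)]
    · simp
    · intro i hi
      rw [mem_range] at hi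
      have hi' : i + n ≤ v.length := by omega
      have h3 : (univ.filter fun u : Fin n → Fin a => CoversAt v u i) =
          Fintype.piFinset fun t : Fin n => if v[i + t.val]? = some none then (univ : Finset (Fin a))
            else {vl v a0 (i + t)} := by
        ext u
        simp only [mem_filter, mem_univ, true_and, Fintype.mem_piFinset, CoversAt, hi']
        refine forall_congr' fun t => ?_
        by_cases ht : v[i + t.val]? = some none
        · simp [ht]
        · simp only [ht, false_or, if_false, mem_singleton]
          rw [get_of_isL (a0 := a0) (by have := t.2; omega) ht]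
          simp [eq_comm]
      rw [h3, Fintype.card_piFinset]
      have h4 : ∀ t : Fin n, (if v[i + t.val]? = some none then (univ : Finset (Fin a))
          else {vl v a0 (i + t)}).card = if v[i + t.val]? = some none then a else 1 := fun t => by
        split_ifs <;> simp
      simp only [h4]
      rw [prod_ite, prod_const, prod_const_one, mul_one, hd i hi']
  · intro i _ j _ hij
    simp only [Function.onFun]
    rw [Finset.disjoint_left]
    intro u h3 h4
    exact hij ((hu u).unique (mem_filter.1 h3).2 (mem_filter.1 h4).2)

end

end Pool.Agent.H327.UPW
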